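import Mathlib
set_option autoImplicit false

/-! # Sets of sign sequences and flips of far coordinates -/

namespace Pool.Agent.V11160.SP

open MeasureTheory Filter
open scoped ENNReal symmDiff

/-- The fair coin-tossing measure. -/
noncomputable def coins : Measure (ℕ → Bool) :=
  Measure.infinitePi fun _ => (PMF.uniformOfFintype Bool).toMeasure

instance : IsProbabilityMeasure coins := by unfold coins; infer_instance

/-- Change the signs with index in `T`. -/
def flips (T : Finset ℕ) (s : ℕ → Bool) : ℕ → Bool := fun i => if i ∈ T then !(s i) else s i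

theorem flips_mp (T : Finset ℕ) : MeasurePreserving (flips T) coins coins := by
  have hmeas : Measurable (flips T) := by
    rw [measurable_pi_iff]
    intro i
    unfold flips
    by_cases h : i ∈ T
    · simp only [h, if_true]
      exact (measurable_of_countable (fun b : Bool => !b)).comp (measurable_pi_apply i)
    · simp only [h, if_false]
      exact measurable_pi_apply i
  refine ⟨hmeas, ?_⟩
  have h1 : flips T = fun s i => (fun (i : ℕ) (b : Bool) => if i ∈ T then !b else b) i (s i) := rfl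
  have h2 := Measure.infinitePi_map_pi (ι := ℕ) (X := fun _ => Bool) (Y := fun _ => Bool)
    (μ := fun _ => (PMF.uniformOfFintype Bool).toMeasure)
    (f := fun (i : ℕ) (b : Bool) => if i ∈ T then !b else b) (fun i => measurable_of_countable _)
  unfold coins
  rw [h1]
  refine h2.trans ?_
  congr 1
  ext1 i
  by_cases h : i ∈ T
  · simp only [h, if_true]
    refine Measure.ext_of_singleton fun b => ?_
    rw [Measure.map_apply (measurable_of_countable _) (measurableSet_singleton b)]
    have : (fun b : Bool => !b) ⁻¹' {b} = {!b} := by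
      ext c
      cases b <;> cases c <;> simp
    rw [this, PMF.toMeasure_apply_singleton _ _ (measurableSet_singleton _),
      PMF.toMeasure_apply_singleton _ _ (measurableSet_singleton _)]
    simp
  · simp only [h, if_false]
    exact Measure.map_id'

/-- Sets that are almost invariant under flips of far coordinates. -/
def Stable (B : Set (ℕ → Bool)) : Prop :=
  MeasurableSet B ∧ ∀ δ : ℝ≥0∞, 0 < δ → ∃ N : ℕ, ∀ T : Finset ℕ, (∀ i ∈ T, N ≤ i) →
    coins (B ∆ (flips T ⁻¹' B)) ≤ δ

theorem stable_compl {B : Set (ℕ → Bool)} (h : Stable B) : Stable Bᶜ := by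
  refine ⟨h.1.compl, fun δ hδ => ?_⟩
  obtain ⟨N, hN⟩ := h.2 δ hδ
  refine ⟨N, fun T hT => ?_⟩
  rw [Set.preimage_compl, compl_symmDiff_compl]
  exact hN T hT

theorem stable_union {A B : Set (ℕ → Bool)} (hA : Stable A) (hB : Stable B) :
    Stable (A ∪ B) := by
  refine ⟨hA.1.union hB.1, fun δ hδ => ?_⟩
  have hδ2 : 0 < δ / 2 := ENNReal.half_pos hδ.ne'
  obtain ⟨N, hN⟩ := hA.2 _ hδ2
  obtain ⟨M, hM⟩ := hB.2 _ hδ2
  refine ⟨max N M, fun T hT => ?_⟩
  have hsub : (A ∪ B) ∆ (flips T ⁻¹' (A ∪ B)) ⊆ (A ∆ (flips T ⁻¹' A)) ∪ (B ∆ (flips T ⁻¹' B)) := by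
    intro s hs
    simp only [Set.mem_symmDiff, Set.mem_union, Set.mem_preimage] at hs ⊢
    tauto
  calc coins ((A ∪ B) ∆ (flips T ⁻¹' (A ∪ B)))
      ≤ coins (A ∆ (flips T ⁻¹' A)) + coins (B ∆ (flips T ⁻¹' B)) :=
        (measure_mono hsub).trans (measure_union_le _ _)
    _ ≤ δ / 2 + δ / 2 := add_le_add (hN T fun i hi => (le_max_left _ _).trans (hT i hi))
        (hM T fun i hi => (le_max_right _ _).trans (hT i hi))
    _ = δ := ENNReal.add_halves δ

theorem stable_empty : Stable ∅ := by
  refine ⟨MeasurableSet.empty, fun δ hδ => ⟨0, fun T _ => ?_⟩⟩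
  simp

theorem stable_iUnion {B : ℕ → Set (ℕ → Bool)} (h : ∀ i, Stable (B i)) : Stable (⋃ i, B i) := by
  refine ⟨MeasurableSet.iUnion fun i => (h i).1, fun δ hδ => ?_⟩
  have hδ4 : 0 < δ / 2 / 2 := ENNReal.half_pos (ENNReal.half_pos hδ.ne').ne'
  have hacc : ∀ k, Stable (Set.accumulate B k) := by
    intro k
    induction k with
    | zero => simpa [Set.accumulate] using h 0
    | succ k ih =>
      rw [Set.accumulate_succ]
      exact stable_union ih (h (k + 1))
  have hlim : Tendsto (fun k => coins ((⋃ i, B i) \ Set.accumulate B k)) atTop (nhds 0) := by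
    have h1 : ⋂ k, ((⋃ i, B i) \ Set.accumulate B k) = ∅ := by
      ext s
      simp only [Set.mem_iInter, Set.mem_sdiff, Set.mem_iUnion, Set.mem_empty_iff_false, iff_false,
        not_forall]
      by_cases hs : ∃ i, s ∈ B i
      · obtain ⟨i, hi⟩ := hs
        refine ⟨i, fun hcon => hcon.2 ?_⟩
        rw [Set.mem_accumulate]
        exact ⟨i, le_rfl, hi⟩
      · exact ⟨0, fun hcon => hs hcon.1⟩
    have h2 := tendsto_measure_iInter_atTop (μ := coins)
      (s := fun k => (⋃ i, B i) \ Set.accumulate B k)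
      (fun k => ((MeasurableSet.iUnion fun i => (h i).1).diff (hacc k).1).nullMeasurableSet)
      (fun k l hkl => Set.sdiff_subset_sdiff_right (Set.monotone_accumulate hkl))
      ⟨0, measure_ne_top _ _⟩
    rw [h1, measure_empty] at h2
    exact h2
  obtain ⟨k, hk⟩ := (hlim.eventually_lt_const hδ4).exists
  obtain ⟨N, hN⟩ := (hacc k).2 _ (ENNReal.half_pos hδ.ne')
  refine ⟨N, fun T hT => ?_⟩
  set D := (⋃ i, B i) \ Set.accumulate B k with hD
  have hsubacc : Set.accumulate B k ⊆ ⋃ i, B i := Set.accumulate_subset_iUnion k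
  have hsub : (⋃ i, B i) ∆ (flips T ⁻¹' (⋃ i, B i)) ⊆
      (D ∪ (flips T ⁻¹' D)) ∪ ((Set.accumulate B k) ∆ (flips T ⁻¹' (Set.accumulate B k))) := by
    intro s hs
    have h1 := @hsubacc s
    have h2 := @hsubacc (flips T s)
    simp only [Set.mem_symmDiff, Set.mem_union, Set.mem_preimage, hD, Set.mem_sdiff] at hs h1 h2 ⊢
    tauto
  calc coins ((⋃ i, B i) ∆ (flips T ⁻¹' (⋃ i, B i)))
      ≤ (coins D + coins (flips T ⁻¹' D)) +
        coins ((Set.accumulate B k) ∆ (flips T ⁻¹' (Set.accumulate B k))) :=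
        (measure_mono hsub).trans ((measure_union_le _ _).trans
          (add_le_add (measure_union_le _ _) le_rfl))
    _ = (coins D + coins D) +
        coins ((Set.accumulate B k) ∆ (flips T ⁻¹' (Set.accumulate B k))) := by
        rw [(flips_mp T).measure_preimage
          ((MeasurableSet.iUnion fun i => (h i).1).diff (hacc k).1).nullMeasurableSet]
    _ ≤ (δ / 2 / 2 + δ / 2 / 2) + δ / 2 := by
        gcongr
        exact hN T hT
    _ = δ := by rw [ENNReal.add_halves, ENNReal.add_halves]

/-- The σ-algebra of the stable sets. -/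
def stableSpace : MeasurableSpace (ℕ → Bool) where
  MeasurableSet' := Stable
  measurableSet_empty := stable_empty
  measurableSet_compl := fun _ h => stable_compl h
  measurableSet_iUnion := fun _ h => stable_iUnion h

theorem all_stable {B : Set (ℕ → Bool)} (hB : MeasurableSet B) : Stable B := by
  have hle : (MeasurableSpace.pi : MeasurableSpace (ℕ → Bool)) ≤ stableSpace := by
    refine iSup_le fun a => ?_
    rintro _ ⟨t, -, rfl⟩
    change Stable _
    refine ⟨(measurable_pi_apply a) (Set.toFinite t).measurableSet, fun δ hδ => ⟨a + 1, fun T hT => ?_⟩⟩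
    have ha : a ∉ T := fun h => by
      have := hT a h
      omega
    have : ((fun s : ℕ → Bool => s a) ⁻¹' t) ∆ (flips T ⁻¹' ((fun s : ℕ → Bool => s a) ⁻¹' t)) = ∅ := by
      ext s
      simp only [Set.mem_symmDiff, Set.mem_preimage, flips, if_neg ha, Set.mem_empty_iff_false,
        iff_false]
      tauto
    rw [this]
    simp
  exact hle B hB

theorem null_of_flips {B : Set (ℕ → Bool)} (hB : MeasurableSet B) (n : ℕ)
    (h : ∀ N : ℕ, ∃ τ : Finset ℕ, (∀ i ∈ τ, N ≤ i) ∧ τ.card ≤ n ∧
      ∀ s, ∃ T ⊆ τ, flips T s ∉ B) : coins B = 0 := by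
  by_contra hne
  have hpos : 0 < coins B := pos_iff_ne_zero.2 hne
  have hfin : coins B ≠ ⊤ := measure_ne_top _ _
  set δ : ℝ≥0∞ := coins B / 2 ^ (n + 1) with hδ
  have hδpos : 0 < δ := ENNReal.div_pos hne (by finiteness)
  obtain ⟨N, hN⟩ := (all_stable hB).2 δ hδpos
  obtain ⟨τ, hτ, hcard, hflip⟩ := h N
  have hsub : B ⊆ ⋃ T ∈ τ.powerset, (B ∆ (flips T ⁻¹' B)) := by
    intro s hs
    obtain ⟨T, hT, hTs⟩ := hflip s
    simp only [Set.mem_iUnion]
    refine ⟨T, Finset.mem_powerset.2 hT, ?_⟩
    rw [Set.mem_symmDiff]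
    exact Or.inl ⟨hs, hTs⟩
  have h1 : coins B ≤ 2 ^ n * δ := by
    calc coins B ≤ coins (⋃ T ∈ τ.powerset, (B ∆ (flips T ⁻¹' B))) := measure_mono hsub
      _ ≤ ∑ T ∈ τ.powerset, coins (B ∆ (flips T ⁻¹' B)) := measure_biUnion_finset_le _ _
      _ ≤ ∑ _T ∈ τ.powerset, δ := Finset.sum_le_sum fun T hT =>
          hN T fun i hi => hτ i (Finset.mem_powerset.1 hT hi)
      _ = 2 ^ τ.card * δ := by
          rw [Finset.sum_const, Finset.card_powerset, nsmul_eq_mul]
          push_cast
          rfl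
      _ ≤ 2 ^ n * δ := by
          gcongr
          norm_num
  have h2 : 2 ^ n * δ = coins B / 2 := by
    rw [hδ, pow_succ, ENNReal.div_eq_inv_mul, ENNReal.mul_inv (by simp) (by simp), ← mul_assoc,
      ← mul_assoc, ENNReal.mul_inv_cancel (by simp) (by simp), one_mul, ENNReal.div_eq_inv_mul]
  rw [h2] at h1
  exact absurd h1 (not_le.2 (ENNReal.half_lt_self hne hfin))

end Pool.Agent.V11160.SP
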