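import Mathlib
import Pool.Agent.V11160.SP.A
set_option autoImplicit false

/-! # Completely multiplicative functions with random signs on a sparse set of primes -/

namespace Pool.Agent.V11160.SP

open MeasureTheory Filter
open scoped ENNReal Classical

/-- The completely multiplicative function with the values `c p` at the primes `p`. -/
def mult (c : ℕ → ℤ) (m : ℕ) : ℤ := (m.primeFactorsList.map c).prod

/-- The values `c p` with random signs instead for `p ∈ P`. -/
noncomputable def perturb (P : Set ℕ) (c : ℕ → ℤ) (s : ℕ → Bool) (p : ℕ) : ℤ :=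
  if p ∈ P then (if s p then 1 else -1) else c p

/-- The set `A` has positive upper density: for some `k` it contains at least `X / k` of the
numbers below `X`, for infinitely many `X`. -/
def PositiveUpperDensity (A : Set ℕ) : Prop :=
  ∃ k : ℕ, ∃ᶠ X : ℕ in atTop, X ≤ k * ((Finset.range X).filter (· ∈ A)).card

theorem mult_mul (c : ℕ → ℤ) {a b : ℕ} (ha : a ≠ 0) (hb : b ≠ 0) :
    mult c (a * b) = mult c a * mult c b := by
  unfold mult
  rw [((Nat.perm_primeFactorsList_mul ha hb).map c).prod_eq, List.map_append, List.prod_append]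

theorem mult_prime (c : ℕ → ℤ) {p : ℕ} (hp : p.Prime) : mult c p = c p := by
  unfold mult
  rw [Nat.primeFactorsList_prime hp]
  simp

theorem mult_congr {c c' : ℕ → ℤ} {m : ℕ} (h : ∀ p, p.Prime → p ∣ m → c p = c' p) :
    mult c m = mult c' m := by
  unfold mult
  congr 1
  refine List.map_congr_left fun p hp => ?_
  exact h p (Nat.prime_of_mem_primeFactorsList hp) (Nat.dvd_of_mem_primeFactorsList hp)

theorem mult_pm {c : ℕ → ℤ} (hc : ∀ p, c p = 1 ∨ c p = -1) (m : ℕ) :
    mult c m = 1 ∨ mult c m = -1 := by
  unfold mult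
  induction m.primeFactorsList with
  | nil => left; rfl
  | cons p l ih =>
    rw [List.map_cons, List.prod_cons]
    rcases hc p with h | h <;> rcases ih with h' | h' <;> rw [h, h'] <;> simp

theorem perturb_pm {P : Set ℕ} {c : ℕ → ℤ} (hc : ∀ p, c p = 1 ∨ c p = -1) (s : ℕ → Bool) (p : ℕ) :
    perturb P c s p = 1 ∨ perturb P c s p = -1 := by
  unfold perturb
  split_ifs
  · left; rfl
  · right; rfl
  · exact hc p

theorem mult_meas (P : Set ℕ) (c : ℕ → ℤ) (m : ℕ) :
    Measurable fun s : ℕ → Bool => mult (perturb P c s) m := by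
  unfold mult
  induction m.primeFactorsList with
  | nil => exact measurable_const
  | cons p l ih =>
    simp only [List.map_cons, List.prod_cons]
    refine Measurable.mul ?_ ih
    unfold perturb
    by_cases h : p ∈ P
    · simp only [h, if_true]
      exact (measurable_of_countable (fun b : Bool => (if b then (1 : ℤ) else -1))).comp
        (measurable_pi_apply p)
    · simp only [h, if_false]
      exact measurable_const

/-- The places of the pattern. -/
def places {n : ℕ} (f : ℕ → ℤ) (ε : Fin n → ℤ) : Set ℕ :=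
  {m | ∀ j : Fin n, f (m + (j + 1)) = ε j}

theorem good_meas (P : Set ℕ) (c : ℕ → ℤ) {n : ℕ} (ε : Fin n → ℤ) :
    MeasurableSet {s : ℕ → Bool | PositiveUpperDensity (places (mult (perturb P c s)) ε)} := by
  have h1 : ∀ m : ℕ, MeasurableSet {s : ℕ → Bool | m ∈ places (mult (perturb P c s)) ε} := by
    intro m
    have : {s : ℕ → Bool | m ∈ places (mult (perturb P c s)) ε}
        = ⋂ j : Fin n, {s : ℕ → Bool | mult (perturb P c s) (m + (j + 1)) = ε j} := by
      ext s
      simp [places]
    rw [this]
    exact MeasurableSet.iInter fun j => (mult_meas P c _) (measurableSet_singleton _)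
  have h2 : ∀ X : ℕ, Measurable fun s : ℕ → Bool =>
      ((Finset.range X).filter (· ∈ places (mult (perturb P c s)) ε)).card := by
    intro X
    have : (fun s : ℕ → Bool =>
        ((Finset.range X).filter (· ∈ places (mult (perturb P c s)) ε)).card)
        = fun s => ∑ m ∈ Finset.range X,
          (if m ∈ places (mult (perturb P c s)) ε then 1 else 0) := by
      funext s
      rw [Finset.card_filter]
    rw [this]
    refine Finset.measurable_fun_sum _ fun m _ => ?_
    exact Measurable.ite (h1 m) measurable_const measurable_const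
  have h3 : {s : ℕ → Bool | PositiveUpperDensity (places (mult (perturb P c s)) ε)}
      = ⋃ k : ℕ, ⋂ N : ℕ, ⋃ X : ℕ, {s : ℕ → Bool | N ≤ X ∧
        X ≤ k * ((Finset.range X).filter (· ∈ places (mult (perturb P c s)) ε)).card} := by
    ext s
    simp [PositiveUpperDensity, frequently_atTop]
  rw [h3]
  refine MeasurableSet.iUnion fun k => MeasurableSet.iInter fun N => MeasurableSet.iUnion fun X => ?_
  refine MeasurableSet.inter (MeasurableSet.const _) ?_
  exact measurableSet_le measurable_const ((h2 X).const_mul k)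

/-- Pigeonhole: one of finitely many colours has positive upper density. -/
theorem pigeon {κ : Type*} [Fintype κ] (col : ℕ → κ) :
    ∃ a : κ, ∃ᶠ M : ℕ in atTop, M ≤ Fintype.card κ *
      ((Finset.range M).filter (fun t => col t = a)).card := by
  by_contra hcon
  push Not at hcon
  have h1 : ∀ᶠ M : ℕ in atTop, ∀ a : κ, Fintype.card κ *
      ((Finset.range M).filter (fun t => col t = a)).card < M := by
    rw [eventually_all]
    intro a
    exact hcon a
  obtain ⟨M, hM⟩ := h1.exists
  have h2 : ∑ a : κ, ((Finset.range M).filter (fun t => col t = a)).card = M := by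
    have := Finset.card_eq_sum_card_fiberwise (s := Finset.range M) (t := Finset.univ) (f := col)
      (fun _ _ => Finset.mem_coe.2 (Finset.mem_univ _))
    rw [Finset.card_range] at this
    exact this.symm
  have hne : Nonempty κ := ⟨col 0⟩
  have h3 : ∑ a : κ, Fintype.card κ * ((Finset.range M).filter (fun t => col t = a)).card
      < ∑ _a : κ, M := Finset.sum_lt_sum_of_nonempty Finset.univ_nonempty fun a _ => hM a
  rw [← Finset.mul_sum, h2, Finset.sum_const, Finset.card_univ, smul_eq_mul] at h3
  exact lt_irrefl _ h3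

theorem exists_flip (P : Set ℕ) (hP : ∀ p ∈ P, p.Prime) (hinf : P.Infinite) (c : ℕ → ℤ)
    (hc : ∀ p, c p = 1 ∨ c p = -1) {n : ℕ} (ε : Fin n → ℤ) (hε : ∀ j, ε j = 1 ∨ ε j = -1)
    (N : ℕ) : ∃ τ : Finset ℕ, (∀ i ∈ τ, N ≤ i) ∧ τ.card ≤ n ∧ ∀ s, ∃ T ⊆ τ,
      PositiveUpperDensity (places (mult (perturb P c (flips T s))) ε) := by
  have hinf' : (P ∩ Set.Ioi (N + n)).Infinite := by
    by_contra hcon
    apply hinf
    have h1 : P ⊆ (P ∩ Set.Ioi (N + n)) ∪ Set.Iic (N + n) := by
      intro p hp
      rcases lt_or_ge (N + n) p with h | h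
      · exact Or.inl ⟨hp, h⟩
      · exact Or.inr h
    exact ((Set.not_infinite.1 hcon).union (Set.finite_Iic _)).subset h1
  set e : ℕ ↪ (P ∩ Set.Ioi (N + n) : Set ℕ) := Set.Infinite.natEmbedding _ hinf' with he
  set p : Fin n → ℕ := fun j => (e (j : ℕ) : ℕ) with hpdef
  have hpP : ∀ j, p j ∈ P := fun j => (e (j : ℕ)).2.1
  have hpN : ∀ j, N + n < p j := fun j => (e (j : ℕ)).2.2
  have hpp : ∀ j, (p j).Prime := fun j => hP _ (hpP j)
  have hinj : Function.Injective p := by
    intro i j hij
    have h1 : e (i : ℕ) = e (j : ℕ) := Subtype.ext hij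
    exact Fin.ext (e.injective h1)
  set τ : Finset ℕ := Finset.univ.image p with hτ
  -- the residue class
  obtain ⟨r, hr⟩ : ∃ r : ℕ, ∀ j : Fin n, r ≡ p j - (j + 1) [MOD (p j) ^ 2] := by
    have hcop : Set.Pairwise (↑(Finset.univ : Finset (Fin n)))
        (Function.onFun Nat.Coprime fun j => (p j) ^ 2) := by
      intro i _ j _ hij
      exact Nat.Coprime.pow 2 2 ((Nat.coprime_primes (hpp i) (hpp j)).2 fun h => hij (hinj h))
    have := Nat.chineseRemainderOfFinset (fun j : Fin n => p j - (j + 1)) (fun j => (p j) ^ 2)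
      Finset.univ (fun j _ => pow_ne_zero 2 (hpp j).ne_zero) hcop
    exact ⟨this.1, fun j => this.2 j (Finset.mem_univ j)⟩
  set Q : ℕ := ∏ j, (p j) ^ 2 with hQ
  have hQdvd : ∀ j, (p j) ^ 2 ∣ Q := fun j => Finset.dvd_prod_of_mem _ (Finset.mem_univ j)
  have hQpos : 0 < Q := Finset.prod_pos fun j _ => pow_pos (hpp j).pos 2
  have hmod : ∀ (t : ℕ) (j : Fin n), r + Q * t + (j + 1) ≡ p j [MOD (p j) ^ 2] := by
    intro t j
    have h1 : Q * t ≡ 0 [MOD (p j) ^ 2] :=
      (Nat.modEq_zero_iff_dvd).2 ((hQdvd j).trans (Dvd.intro t rfl))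
    have h2 : r + Q * t + (j + 1) ≡ (p j - (j + 1)) + 0 + (j + 1) [MOD (p j) ^ 2] :=
      ((hr j).add h1).add_right _
    have h3 : (p j - (j + 1)) + 0 + (j + 1) = p j := by
      have := hpN j
      have := j.2
      omega
    rw [h3] at h2
    exact h2
  have hk : ∀ (t : ℕ) (j : Fin n), ∃ k : ℕ, r + Q * t + (j + 1) = p j * k ∧ ¬ p j ∣ k := by
    intro t j
    have h1 := hmod t j
    have h2 : p j ∣ r + Q * t + (j + 1) := by
      have h3 : r + Q * t + (j + 1) ≡ p j [MOD p j] := h1.of_dvd (Dvd.intro_left (p j) (by ring))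
      have h4 : p j ≡ 0 [MOD p j] := (Nat.modEq_zero_iff_dvd).2 dvd_rfl
      exact (Nat.modEq_zero_iff_dvd).1 (h3.trans h4)
    obtain ⟨k, hk⟩ := h2
    refine ⟨k, hk, ?_⟩
    rintro ⟨l, rfl⟩
    have h3 : (p j) ^ 2 ∣ r + Q * t + (j + 1) := ⟨l, by rw [hk]; ring⟩
    have h4 : (p j) ^ 2 ∣ p j := (Nat.modEq_zero_iff_dvd).1
      (h1.symm.trans ((Nat.modEq_zero_iff_dvd).2 h3))
    have h5 := Nat.le_of_dvd (hpp j).pos h4
    have h6 := (hpp j).one_lt
    nlinarith
  choose k hk1 hk2 using hk
  have hk3 : ∀ (t : ℕ) (i j : Fin n), ¬ p i ∣ k t j := by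
    intro t i j hdvd
    by_cases hij : i = j
    · subst hij
      exact hk2 t i hdvd
    · have h1 : p i ∣ r + Q * t + (j + 1) := by
        rw [hk1 t j]
        exact Dvd.dvd.mul_left hdvd _
      have h2 : p i ∣ r + Q * t + (i + 1) := by
        rw [hk1 t i]
        exact Dvd.intro _ rfl
      have h3 := hpN i
      have hi := i.2
      have hj := j.2
      rcases lt_or_gt_of_ne (fun h : (i : ℕ) = j => hij (Fin.ext h)) with h | h
      · have h4 := Nat.dvd_sub h1 h2
        have h5 : r + Q * t + (j + 1) - (r + Q * t + (i + 1)) = j - i := by omega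
        rw [h5] at h4
        have := Nat.le_of_dvd (by omega) h4
        omega
      · have h4 := Nat.dvd_sub h2 h1
        have h5 : r + Q * t + (i + 1) - (r + Q * t + (j + 1)) = i - j := by omega
        rw [h5] at h4
        have := Nat.le_of_dvd (by omega) h4
        omega
  have hkpos : ∀ t j, k t j ≠ 0 := fun t j h0 => hk2 t j (h0 ▸ dvd_zero _)
  refine ⟨τ, ?_, ?_, ?_⟩
  · intro i hi
    obtain ⟨j, -, rfl⟩ := Finset.mem_image.1 hi
    have := hpN j
    omega
  · exact Finset.card_image_le.trans (by simp)
  · intro s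
    -- colours
    obtain ⟨a, ha⟩ := pigeon (fun t : ℕ => fun j : Fin n =>
      decide (mult (perturb P c s) (k t j) = 1))
    set π : Fin n → ℤ := fun j => if a j then 1 else -1 with hπ
    have hcol : ∀ t, (fun j : Fin n => decide (mult (perturb P c s) (k t j) = 1)) = a →
        ∀ j, mult (perturb P c s) (k t j) = π j := by
      intro t ht j
      have h1 : decide (mult (perturb P c s) (k t j) = 1) = a j := congrFun ht j
      have h2 : π j = if a j then 1 else -1 := rfl
      rw [h2, ← h1]
      rcases mult_pm (perturb_pm hc s) (k t j) with h | h <;> rw [h] <;> simp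
    -- the flips
    set T : Finset ℕ := τ.filter fun q => ∃ j, p j = q ∧
      (if s q then (1 : ℤ) else -1) ≠ ε j * π j with hT
    refine ⟨T, Finset.filter_subset _ _, ?_⟩
    have hval : ∀ j, perturb P c (flips T s) (p j) = ε j * π j := by
      intro j
      rw [perturb, if_pos (hpP j), flips]
      have hmem : p j ∈ T ↔ (if s (p j) then (1 : ℤ) else -1) ≠ ε j * π j := by
        rw [hT, Finset.mem_filter]
        constructor
        · rintro ⟨-, i, hi, hne⟩
          rwa [hinj hi] at hne
        · intro hne
          exact ⟨Finset.mem_image_of_mem _ (Finset.mem_univ j), j, rfl, hne⟩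
      have hprod : ε j * π j = 1 ∨ ε j * π j = -1 := by
        rcases hε j with h | h <;> by_cases h' : a j <;> simp [hπ, h, h']
      by_cases hm : p j ∈ T
      · rw [if_pos hm]
        have := hmem.1 hm
        rcases hprod with h | h <;> rw [h] at this ⊢ <;> by_cases h' : s (p j) <;>
          simp [h'] at this ⊢
      · rw [if_neg hm]
        have := not_not.1 (fun h => hm (hmem.2 h))
        exact this
    have hout : ∀ t j, mult (perturb P c (flips T s)) (k t j) = mult (perturb P c s) (k t j) := by
      intro t j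
      refine mult_congr fun q _ hqd => ?_
      have hq : q ∉ T := by
        intro hqT
        obtain ⟨i, -, hi⟩ := Finset.mem_image.1 (Finset.mem_filter.1 hqT).1
        rw [← hi] at hqd
        exact hk3 t i j hqd
      rw [perturb, perturb, flips, if_neg hq]
    have hplace : ∀ t, (fun j : Fin n => decide (mult (perturb P c s) (k t j) = 1)) = a →
        r + Q * t ∈ places (mult (perturb P c (flips T s))) ε := by
      intro t ht j
      rw [hk1 t j, mult_mul _ (hpp j).ne_zero (hkpos t j), mult_prime _ (hpp j), hval, hout,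
        hcol t ht j]
      have : π j * π j = 1 := by
        rw [hπ]
        by_cases h' : a j <;> simp [h']
      rw [mul_assoc, this, mul_one]
    refine ⟨Fintype.card (Fin n → Bool) * (r + Q), ?_⟩
    have htend : Tendsto (fun M : ℕ => r + Q * M) atTop atTop := by
      refine tendsto_atTop_mono (fun M => ?_) tendsto_id
      have : M ≤ Q * M := Nat.le_mul_of_pos_left M hQpos
      simp only [id]
      omega
    refine htend.frequently ((ha.and_eventually (eventually_ge_atTop 1)).mono fun M hM => ?_)
    obtain ⟨hM1, hM2⟩ := hM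
    have hinjm : ((Finset.range M).filter (fun t => (fun j : Fin n =>
        decide (mult (perturb P c s) (k t j) = 1)) = a)).card
        ≤ ((Finset.range (r + Q * M)).filter
          (· ∈ places (mult (perturb P c (flips T s))) ε)).card := by
      refine Finset.card_le_card_of_injOn (fun t => r + Q * t) ?_ ?_
      · intro t ht
        have ht' := Finset.mem_filter.1 ht
        refine Finset.mem_coe.2 (Finset.mem_filter.2 ⟨?_, hplace t ht'.2⟩)
        rw [Finset.mem_range] at ht' ⊢
        have := Nat.mul_lt_mul_of_pos_left ht'.1 hQpos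
        change r + Q * t < r + Q * M
        omega
      · intro t _ t' _ h
        have h' : r + Q * t = r + Q * t' := h
        have h'' : Q * t = Q * t' := by omega
        exact Nat.eq_of_mul_eq_mul_left hQpos h''
    calc r + Q * M ≤ (r + Q) * M := by nlinarith
      _ ≤ (r + Q) * (Fintype.card (Fin n → Bool) * ((Finset.range M).filter (fun t =>
            (fun j : Fin n => decide (mult (perturb P c s) (k t j) = 1)) = a)).card) :=
          Nat.mul_le_mul_left _ (by convert hM1)
      _ ≤ (r + Q) * (Fintype.card (Fin n → Bool) * ((Finset.range (r + Q * M)).filter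
          (· ∈ places (mult (perturb P c (flips T s))) ε)).card) :=
          Nat.mul_le_mul_left _ (Nat.mul_le_mul_left _ hinjm)
      _ = _ := by ring

theorem main (P : Set ℕ) (hP : ∀ p ∈ P, p.Prime) (hinf : P.Infinite) (c : ℕ → ℤ)
    (hc : ∀ p, c p = 1 ∨ c p = -1) : ∀ᵐ s ∂coins, ∀ (n : ℕ) (ε : Fin n → ℤ),
      (∀ j, ε j = 1 ∨ ε j = -1) → PositiveUpperDensity (places (mult (perturb P c s)) ε) := by
  rw [ae_all_iff]
  intro n
  rw [ae_all_iff]
  intro ε
  by_cases hε : ∀ j, ε j = 1 ∨ ε j = -1
  · have hB := (good_meas P c ε).compl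
    have h0 : coins {s : ℕ → Bool | PositiveUpperDensity (places (mult (perturb P c s)) ε)}ᶜ = 0 := by
      refine null_of_flips hB n fun N => ?_
      obtain ⟨τ, h1, h2, h3⟩ := exists_flip P hP hinf c hc ε hε N
      refine ⟨τ, h1, h2, fun s => ?_⟩
      obtain ⟨T, hT, hpos⟩ := h3 s
      exact ⟨T, hT, fun hcon => hcon hpos⟩
    rw [ae_iff]
    refine measure_mono_null (fun s hs => ?_) h0
    intro hcon
    exact hs fun _ => hcon
  · exact Eventually.of_forall fun s h => absurd h hε

end Pool.Agent.V11160.SP
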